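import Mathlib
import Pool.Agent.helper35.DR.SpecA
import Pool.Agent.helper35.DR.SpecR

set_option autoImplicit false

namespace Pool.Agent.DR

open Pool.Agent.helper58.DC Pool.Agent.DI

theorem RLA_ker {G E A : Type} [Group G] [Group E] [Group A] (X : Extension G E A) :
    X.proj.ker = X.inc.range := by
  ext e
  rw [MonoidHom.mem_ker, MonoidHom.mem_range]
  exact X.exact e

theorem RLA (hRTP : RTP_stmt) (hCHA : CHA_stmt) (hRCC : RCC_stmt) (hRPA : RPA_stmt) :
    RLA_stmt := by
  intro G E A _ _ _ _ _ _ X p _ M hM hpM hOp χ hχ hSt N _ hMin hInv D hD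
  have hker := RLA_ker X
  apply hRPA G E A X p M hM hpM hOp χ hχ hSt N hMin.nor D
  have hG2 : (N.comap X.proj).Normal := inferInstance
  have hG1 : X.inc.range.Normal := by
    rw [← hker]
    infer_instance
  have hG12 : X.inc.range ≤ N.comap X.proj := by
    rw [← hker]
    intro x hx
    rw [Subgroup.mem_comap, MonoidHom.mem_ker.mp hx]
    exact one_mem _
  have hcomm : ∀ x ∈ N.comap X.proj, ∀ y ∈ N.comap X.proj,
      x * y * x⁻¹ * y⁻¹ ∈ X.inc.range := by
    intro x hx y hy
    rw [← hker, MonoidHom.mem_ker, map_mul, map_mul, map_mul, map_inv, map_inv,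
      hMin.comm _ (Subgroup.mem_comap.mp hx) _ (Subgroup.mem_comap.mp hy)]
    group
  have hD1 : 1 ≤ D := by
    have : (0 : ℤ) ≤ (padicValNat p (Nat.card N) : ℤ) := Int.natCast_nonneg _
    omega
  have hInv' : InvFor p M (E ⧸ (N.comap X.proj)) := by
    intro G' E' A' _ _ _ _ _ X' hne
    apply hInv G' E' A' X'
    obtain ⟨e⟩ := hne
    let φ : E →* A ⧸ N := (QuotientGroup.mk' N).comp X.proj
    have hφ : Function.Surjective φ :=
      (QuotientGroup.mk'_surjective N).comp X.proj_surjective
    have hφk : N.comap X.proj = φ.ker := by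
      ext x
      rw [MonoidHom.mem_ker, Subgroup.mem_comap]
      exact (QuotientGroup.eq_one_iff (X.proj x)).symm
    exact ⟨e.trans ((QuotientGroup.quotientMulEquivOfEq hφk).trans
      (QuotientGroup.quotientKerEquivOfSurjective φ hφ))⟩
  have h0 := hRTP E p M hM hpM X.inc.range (N.comap X.proj) hInv' (omega (ext0 X.inc χ)) D hD1
  rw [← h0]
  symm
  apply hCHA E p X.inc.range (N.comap X.proj) _ hG1 hG2 hG12 hcomm
  · intro K hK hK1 hK2
    have hK3 : (K.map X.proj).comap X.proj = K :=
      Subgroup.comap_map_eq_self (hker ▸ hK1)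
    have hK4 : (K.map X.proj).Normal := hK.map X.proj X.proj_surjective
    have hK5 : K.map X.proj ≤ N := by
      rintro _ ⟨x, hx, rfl⟩
      exact hK2 hx
    rcases hMin.min _ hK4 hK5 with h | h
    · left
      rw [← hK3, h, MonoidHom.comap_bot, hker]
    · right
      rw [← hK3, h]
  · intro N' hN'
    unfold hf
    rw [if_neg hN']
  · intro R hR _ hR2 hR3 hR4
    refine hRCC E p M hM hpM X.inc.range (N.comap X.proj) R hG1 hG12 hcomm hInv' hR hR2 hR3 hR4
      (omega (ext0 X.inc χ)) D ?_
    have hinj : Function.Injective (X.proj.comp R.subtype) := by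
      rw [injective_iff_map_eq_one]
      intro x hx
      have h1 : (x : E) ∈ R ⊓ X.inc.range := by
        refine ⟨x.2, ?_⟩
        rw [← hker]
        exact hx
      rw [hR3, Subgroup.mem_bot] at h1
      exact Subtype.ext h1
    have hrange : (X.proj.comp R.subtype).range = N := by
      have h2 : R.map X.proj = N := by
        have h3 : (N.comap X.proj).map X.proj = N :=
          Subgroup.map_comap_eq_self_of_surjective X.proj_surjective N
        have h4 : (X.inc.range).map X.proj = ⊥ := by
          rw [← hker, Subgroup.map_eq_bot_iff]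
        rw [← h3, ← hR4, Subgroup.map_sup, h4, sup_bot_eq]
      rw [MonoidHom.range_comp, Subgroup.range_subtype]
      exact h2
    have hcard : Nat.card R = Nat.card N := by
      rw [← hrange]
      exact Nat.card_congr (MonoidHom.ofInjective hinj).toEquiv
    rw [hcard]
    exact hD

end Pool.Agent.DR
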